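import Pool.Agent.Q331.FC.Stmts

/-! FC.TaskEqui, fallback proof (helper119). -/

set_option autoImplicit false

namespace Pool.Agent.H119.FB.Equi

open MeasureTheory Filter Pool.Agent.Q331.FC

theorem main : Pool.Agent.Q331.FC.TaskEqui := by
  intro hPres E _ ν _ φ hφ
  have hall : ∀ᵐ y ∂iid ν, ∀ n : ℕ, φ (sh (sh^[n] y)) = sh (φ (sh^[n] y)) := by
    rw [ae_all_iff]
    intro n
    exact ((hPres E ν).iterate n).quasiMeasurePreserving.ae hφ
  filter_upwards [hall] with y hy i
  induction i with
  | zero => rfl
  | succ i ih =>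
    rw [Function.iterate_succ_apply', Function.iterate_succ_apply', hy i, ih]

end Pool.Agent.H119.FB.Equi
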